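import Pool.Agent.Run7.h960.Final

set_option autoImplicit false

/-!
# The monoid decomposition problem is fixed-parameter tractable in the dimension
-/

namespace Pool.Agent.Results.MP_3a3592_lc.MonoidDecompositionFPT

open Pool.Agent.NPC

/-- The set `S` of all nonnegative integer vectors `z` with `A z ≤ b`. -/
def solutions {m d : ℕ} (A : Matrix (Fin m) (Fin d) ℤ) (b : Fin m → ℤ) : Set (Fin d → ℤ) :=
  {z | (∀ j, 0 ≤ z j) ∧ ∀ i, (A.mulVec z) i ≤ b i}

/-- The input: the list of all pairs (row of `A`, entry of `b`), and the vector `a`. -/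
def input {m d : ℕ} (A : Matrix (Fin m) (Fin d) ℤ) (b : Fin m → ℤ) (a : Fin d → ℤ) :
    List (List ℤ × ℤ) × List ℤ :=
  (List.ofFn fun i => (List.ofFn (A i), b i), List.ofFn a)

/-- The binary encoding length: the total number of binary digits of the entries of `A`, `b` and
`a`, plus one for each of these entries. -/
def inputLength {m d : ℕ} (A : Matrix (Fin m) (Fin d) ℤ) (b : Fin m → ℤ) (a : Fin d → ℤ) : ℕ :=
  (∑ i, ∑ j, ((A i j).natAbs.size + 1)) + (∑ i, ((b i).natAbs.size + 1)) +
    ∑ j, ((a j).natAbs.size + 1)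

lemma sz_ofFn {α : Type} [TEnc α] {n : ℕ} (f : Fin n → α) :
    sz (List.ofFn f) = ∑ i, (sz (f i) + 1) + 1 := by
  induction n with
  | zero => simp
  | succ n ih => rw [List.ofFn_succ, sz_list_cons, ih, Fin.sum_univ_succ]; omega

lemma sz_ofFn_int {n : ℕ} (f : Fin n → ℤ) :
    sz (List.ofFn f) ≤ 6 * ∑ i, ((f i).natAbs.size + 1) + 1 := by
  rw [sz_ofFn, Finset.mul_sum]
  have : ∑ i, (sz (f i) + 1) ≤ ∑ i, 6 * ((f i).natAbs.size + 1) :=
    Finset.sum_le_sum fun i _ => by
      have := sz_int_le (f i)
      omega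
  omega

lemma bits_le {m d : ℕ} (A : Matrix (Fin m) (Fin d) ℤ) (b : Fin m → ℤ) (a : Fin d → ℤ) :
    (bits (input A b a)).length + 1 ≤ 8 * (inputLength A b a + 1) := by
  have h : (bits (input A b a)).length = sz (input A b a) := rfl
  have h1 := sz_ofFn_int a
  have h2 : sz (List.ofFn fun i => (List.ofFn (A i), b i)) ≤
      8 * ((∑ i, ∑ j, ((A i j).natAbs.size + 1)) + (∑ i, ((b i).natAbs.size + 1))) + 1 := by
    rw [sz_ofFn, ← Finset.sum_add_distrib, Finset.mul_sum]
    have : ∑ i, (sz (List.ofFn (A i), b i) + 1) ≤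
        ∑ i, 8 * ((∑ j, ((A i j).natAbs.size + 1)) + ((b i).natAbs.size + 1)) :=
      Finset.sum_le_sum fun i _ => by
        have e1 := sz_ofFn_int (A i)
        have e2 := sz_int_le (b i)
        rw [sz_pair]
        omega
    omega
  rw [h, input, sz_pair, inputLength]
  omega

lemma decomposable_iff {m d : ℕ} (A : Matrix (Fin m) (Fin d) ℤ) (b : Fin m → ℤ)
    (a : Fin d → ℤ) :
    Run7.h960.Decomposable (input A b a) ↔ a ∈ AddSubmonoid.closure (solutions A b) := by
  have key : ∀ N, N = d → ((fun i : Fin N => (List.ofFn a).getD i 0) ∈ AddSubmonoid.closure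
      {z : Fin N → ℤ | (∀ i, 0 ≤ z i) ∧ ∀ r ∈ List.ofFn fun i => (List.ofFn (A i), b i),
        ∑ i : Fin N, r.1.getD i 0 * z i ≤ r.2} ↔
      a ∈ AddSubmonoid.closure (solutions A b)) := by
    rintro _ rfl
    have e1 : (fun i : Fin _ => (List.ofFn a).getD i 0) = a := by
      funext i
      rw [List.getD_eq_getElem _ _ (by simp)]
      simp
    have e2 : {z : Fin _ → ℤ | (∀ i, 0 ≤ z i) ∧ ∀ r ∈ List.ofFn fun i => (List.ofFn (A i), b i),
        ∑ i : Fin _, r.1.getD i 0 * z i ≤ r.2} = solutions A b := by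
      ext z
      simp only [solutions, Set.mem_ofPred_eq]
      refine and_congr_right fun _ => ?_
      have e3 : ∀ i, ∑ j : Fin _, (List.ofFn (A i)).getD j 0 * z j = (A.mulVec z) i := by
        intro i
        unfold Matrix.mulVec dotProduct
        refine Finset.sum_congr rfl fun j _ => ?_
        rw [List.getD_eq_getElem _ _ (by simp)]
        simp
      constructor
      · intro h i
        have h1 := h (List.ofFn (A i), b i) (List.mem_ofFn.2 ⟨i, rfl⟩)
        simp only [e3] at h1
        exact h1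
      · intro h r hr
        obtain ⟨i, rfl⟩ := List.mem_ofFn.1 hr
        simp only [e3]
        exact h i
    rw [e1, e2]
  exact key (input A b a).2.length (by simp [input])

/-- There are a single Turing machine, a computable function `f` and a constant `c` such that the
machine, given (in binary) an integer `m × d` matrix `A` and vectors `b`, `a`, outputs whether `a`
is a sum of finitely many elements (with repetitions) of `S = {z ≥ 0 : A z ≤ b}`, within
`f d * (L + 1) ^ c` steps, where `L` is the binary encoding length of `(A, b, a)`. -/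
theorem result :
    ∃ (tm : Turing.FinTM2) (e₀ : tm.Γ tm.k₀ ≃ Bool) (e₁ : tm.Γ tm.k₁ ≃ Bool)
      (f : ℕ → ℕ) (c : ℕ), Computable f ∧
      ∀ (m d : ℕ) (A : Matrix (Fin m) (Fin d) ℤ) (b : Fin m → ℤ) (a : Fin d → ℤ),
        ∃ o : Bool, (o = true ↔ a ∈ AddSubmonoid.closure (solutions A b)) ∧
          Nonempty (Turing.TM2OutputsInTime tm ((bits (input A b a)).map e₀.invFun)
            (some ((bits o).map e₁.invFun)) (f d * (inputLength A b a + 1) ^ c)) := by
  classical
  obtain ⟨tm, e₀, e₁, f, c, hf, h⟩ := Run7.h960.decomposable_fpt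
  refine ⟨tm, e₀, e₁, fun t => f t * 8 ^ c, c, ?_, fun m d A b a => ?_⟩
  · exact Primrec.nat_mul.to_comp.comp hf (Computable.const _)
  · refine ⟨decide (a ∈ AddSubmonoid.closure (solutions A b)), by simp, ?_⟩
    obtain ⟨h'⟩ := h (input A b a) (decide (a ∈ AddSubmonoid.closure (solutions A b)))
      (by rw [decomposable_iff]; simp)
    have e : (input A b a).2.length = d := by simp [input]
    rw [e] at h'
    refine ⟨⟨h'.toEvalsTo, h'.steps_le_m.trans ?_⟩⟩
    calc f d * ((bits (input A b a)).length + 1) ^ c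
        ≤ f d * (8 * (inputLength A b a + 1)) ^ c :=
          Nat.mul_le_mul_left _ (Nat.pow_le_pow_left (bits_le A b a) c)
      _ = f d * 8 ^ c * (inputLength A b a + 1) ^ c := by rw [mul_pow, mul_assoc]

end Pool.Agent.Results.MP_3a3592_lc.MonoidDecompositionFPT
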